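import Mathlib

/-!
# Malle's conjecture for wreath products `C₂ ≀ H` : definitions and statements

Paper proof (owner helper444).  `K` number field, `Ω` algebraic closure, `H` finite group,
`G = C₂ ≀ H` acting on `H × {0,1}`.  The `G`-extensions `L` of `K` are the quadratic extensions
`L = M(√α)` of the Galois extensions `M/K` with group `H` for which the conjugates of `α` are
independent modulo squares.
-/

set_option autoImplicit false

open NumberField Filter Topology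

namespace Pool.Agent.TH444.ML

/-- The quadratic extensions `L` of `M` in `E` with `|d_L| ≤ Y d_M ^ 2`. -/
def QS (M E : Type) [Field M] [NumberField M] [Field E] [Algebra M E] (Y : ℝ) :
    Set (IntermediateField M E) :=
  {L | Module.finrank M L = 2 ∧ ∃ h : NumberField L,
    ((|@discr L _ h| : ℤ) : ℝ) ≤ Y * ((discr M : ℤ) : ℝ) ^ 2}

/-- `α ≠ 0` and `(α) = 𝔡 𝔠 ^ 2` with `𝔡` squarefree. -/
def Sqf (M : Type) [Field M] [NumberField M] (𝔠 : Ideal (𝓞 M)) (α : 𝓞 M) : Prop :=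
  α ≠ 0 ∧ ∃ 𝔡 : Ideal (𝓞 M), Squarefree 𝔡 ∧ Ideal.span {α} = 𝔡 * 𝔠 ^ 2

/-- A function `k` for which `|d_(M(√α))| k(𝔠, α) ^ 2 = 4 ^ [M:ℚ] d_M ^ 2 N 𝔡` whenever
`(α) = 𝔡 𝔠 ^ 2`, `𝔡` squarefree.  (It exists: `k(𝔠, α)` is the number of classes modulo
`𝓞 × 𝔠⁻¹` of pairs `(x, y)` with `2 x ∈ 𝓞`, `2 y ∈ 𝔠⁻¹`, `x ^ 2 - α y ^ 2 ∈ 𝓞`.) -/
structure IsK (M : Type) [Field M] [NumberField M] (k : Ideal (𝓞 M) → 𝓞 M → ℕ) : Prop where
  congr : ∀ (𝔠 : Ideal (𝓞 M)) (α α' : 𝓞 M), 𝔠 ≠ ⊥ →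
    α - α' ∈ Ideal.span {(4 : 𝓞 M)} * 𝔠 ^ 2 → k 𝔠 α = k 𝔠 α'
  pos : ∀ (𝔠 : Ideal (𝓞 M)) (α : 𝓞 M), 𝔠 ≠ ⊥ → 1 ≤ k 𝔠 α
  le : ∀ (𝔠 : Ideal (𝓞 M)) (α : 𝓞 M), 𝔠 ≠ ⊥ → k 𝔠 α ≤ 4 ^ Module.finrank ℚ M
  unit : ∀ (𝔠 : Ideal (𝓞 M)) (α : 𝓞 M) (u : (𝓞 M)ˣ), 𝔠 ≠ ⊥ →
    k 𝔠 ((u : 𝓞 M) ^ 2 * α) = k 𝔠 α
  disc : ∀ (L : Type) [Field L] [NumberField L] [Algebra M L] (s : L) (α : 𝓞 M)
    (𝔡 𝔠 : Ideal (𝓞 M)), Module.finrank M L = 2 → s ^ 2 = algebraMap M L (α : M) →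
    (∀ x : M, algebraMap M L x ≠ s) → α ≠ 0 → Squarefree 𝔡 → Ideal.span {α} = 𝔡 * 𝔠 ^ 2 →
    (discr L).natAbs * (k 𝔠 α) ^ 2 =
      4 ^ Module.finrank ℚ M * (discr M).natAbs ^ 2 * Ideal.absNorm 𝔡

/-- discriminants of quadratic extensions -/
def DiscQuad : Prop :=
  ∀ (M : Type) [Field M] [NumberField M], ∃ k : Ideal (𝓞 M) → 𝓞 M → ℕ, IsK M k

/-- `rep` chooses an integral ideal in each ideal class -/
def Rep (M : Type) [Field M] [NumberField M] (rep : ClassGroup (𝓞 M) → Ideal (𝓞 M)) : Prop :=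
  ∀ C, ∃ h : rep C ∈ nonZeroDivisors (Ideal (𝓞 M)), ClassGroup.mk0 ⟨rep C, h⟩ = C

/-- Parametrisation of the quadratic extensions of `M`. -/
def KumP : Prop :=
  ∀ (M E : Type) [Field M] [NumberField M] [Field E] [Algebra M E] [IsAlgClosed E]
    (rep : ClassGroup (𝓞 M) → Ideal (𝓞 M)), Rep M rep →
    (∀ L : IntermediateField M E, Module.finrank M L = 2 →
      ∃ (C : ClassGroup (𝓞 M)) (α : 𝓞 M) (s : E), Sqf M (rep C) α ∧
        s ^ 2 = algebraMap M E (α : M) ∧ (∀ x : M, algebraMap M E x ≠ s) ∧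
        L = IntermediateField.adjoin M {s}) ∧
    (∀ (C C' : ClassGroup (𝓞 M)) (α α' : 𝓞 M) (s s' : E), Sqf M (rep C) α → Sqf M (rep C') α' →
      s ^ 2 = algebraMap M E (α : M) → s' ^ 2 = algebraMap M E (α' : M) →
      (∀ x : M, algebraMap M E x ≠ s) →
      IntermediateField.adjoin M {s} = IntermediateField.adjoin M {s'} →
      C = C' ∧ ∃ u : (𝓞 M)ˣ, α' = (u : 𝓞 M) ^ 2 * α) ∧
    (∀ (α : 𝓞 M) (s : E), s ^ 2 = algebraMap M E (α : M) → (∀ x : M, algebraMap M E x ≠ s) →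
      Module.finrank M (IntermediateField.adjoin M {s}) = 2)

/-- The elements of `𝓞` in the fundamental cone for the action of the units. -/
def cone (M : Type) [Field M] [NumberField M] : Set (𝓞 M) :=
  {α | mixedEmbedding M (α : M) ∈ mixedEmbedding.fundamentalCone M}

/-- the absolute value of the norm, as a real number -/
noncomputable def nrm {M : Type} [Field M] [NumberField M] (α : 𝓞 M) : ℝ :=
  ((|Algebra.norm ℤ α| : ℤ) : ℝ)

/-- elementary facts on the cone -/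
def ConeFacts : Prop :=
  ∀ (M : Type) [Field M] [NumberField M],
    (∀ Z : ℝ, {α : 𝓞 M | α ∈ cone M ∧ nrm α ≤ Z}.Finite) ∧
    (∀ α : 𝓞 M, α ∈ cone M → α ≠ 0) ∧
    (∀ α : 𝓞 M, α ≠ 0 →
      Set.ncard {u : (𝓞 M)ˣ | (u : 𝓞 M) * α ∈ cone M} = Units.torsionOrder M)

/-- residue classes have a density in the cone -/
def ConeDens : Prop :=
  ∀ (M : Type) [Field M] [NumberField M] (𝔟 : Ideal (𝓞 M)) (_ : 𝔟 ≠ ⊥) (a : 𝓞 M),
    ∃ c : ℝ, Tendsto (fun Z : ℝ =>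
      (Set.ncard {α : 𝓞 M | α ∈ cone M ∧ α - a ∈ 𝔟 ∧ nrm α ≤ Z} : ℝ) / Z) atTop (𝓝 c)

/-- the elements with `(α) = 𝔡 𝔠 ^ 2` in the cone have a density, with weights `g` depending on a
residue class -/
def ConeSqf : Prop :=
  ∀ (M : Type) [Field M] [NumberField M] (𝔠 𝔪 : Ideal (𝓞 M)) (_ : 𝔠 ≠ ⊥) (_ : 𝔪 ≠ ⊥)
    (g : 𝓞 M → ℝ), (∀ α α' : 𝓞 M, α - α' ∈ 𝔪 → g α = g α') → (∀ α, 0 ≤ g α) →
    ∃ c : ℝ, Tendsto (fun Y : ℝ =>
      (Set.ncard {α : 𝓞 M | α ∈ cone M ∧ Sqf M 𝔠 α ∧ nrm α ≤ Y * g α} : ℝ) / Y) atTop (𝓝 c)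

/-- quadratic extensions of a fixed number field: the limit exists -/
def QuadLim : Prop :=
  ∀ (M E : Type) [Field M] [NumberField M] [Field E] [Algebra M E] [IsAlgClosed E],
    ∃ c : ℝ, Tendsto (fun Y : ℝ => (Set.ncard (QS M E Y) : ℝ) / Y) atTop (𝓝 c)

/-- quadratic extensions: uniform upper bound -/
def QuadUnif : Prop :=
  ∀ D : ℕ, ∃ C : ℝ, ∀ (M E : Type) [Field M] [NumberField M] [Field E] [Algebra M E]
    [IsAlgClosed E], Module.finrank ℚ M = D → ∀ Y : ℝ, 0 ≤ Y →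
      (QS M E Y).Finite ∧
      (Set.ncard (QS M E Y) : ℝ) ≤ C * ((|discr M| : ℤ) : ℝ) ^ (7 / 4 : ℝ) * Y

/-- quadratic extensions: the limit is positive -/
def QuadPos : Prop :=
  ∀ (M E : Type) [Field M] [NumberField M] [Field E] [Algebra M E] [IsAlgClosed E],
    ¬ Tendsto (fun Y : ℝ => (Set.ncard (QS M E Y) : ℝ) / Y) atTop (𝓝 0)

/-- uniform counting of ideals -/
def IdealUnif : Prop :=
  ∀ D : ℕ, ∃ C : ℝ, ∀ (M : Type) [Field M] [NumberField M], Module.finrank ℚ M = D →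
    ∀ Z : ℝ, 1 ≤ Z → {I : Ideal (𝓞 M) | I ≠ ⊥ ∧ (Ideal.absNorm I : ℝ) ≤ Z}.Finite ∧
      (Set.ncard {I : Ideal (𝓞 M) | I ≠ ⊥ ∧ (Ideal.absNorm I : ℝ) ≤ Z} : ℝ) ≤ C * Z ^ (5 / 4 : ℝ)

/-- uniform counting of principal ideals divisible by an ideal `𝔟` -/
def PrincUnif : Prop :=
  ∀ D : ℕ, ∃ C : ℝ, 1 ≤ C ∧ ∀ (M : Type) [Field M] [NumberField M], Module.finrank ℚ M = D →
    ∀ (𝔟 : Ideal (𝓞 M)), 𝔟 ≠ ⊥ → ∀ Y : ℝ, 1 ≤ Y →
      (Set.ncard {I : Ideal (𝓞 M) | I ≠ ⊥ ∧ 𝔟 ∣ I ∧ (∃ x, I = Ideal.span {x}) ∧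
        (Ideal.absNorm I : ℝ) ≤ Ideal.absNorm 𝔟 * Y} : ℝ) ≤
      C * ((|discr M| : ℤ) : ℝ) ^ (1 / 2 : ℝ) * Y *
        (Set.ncard {I : Ideal (𝓞 M) | I ≠ ⊥ ∧
          (Ideal.absNorm I : ℝ) ≤ C * ((|discr M| : ℤ) : ℝ) ^ (1 / 2 : ℝ)} : ℝ)

/-- squarefree ideals `𝔡` of `M` such that no totally split prime `p` of `K` has exactly one prime
above `p` dividing `𝔡` -/
def badId (K M : Type) [Field K] [NumberField K] [Field M] [NumberField M] [Algebra K M] :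
    Set (Ideal (𝓞 M)) :=
  {𝔡 | Squarefree 𝔡 ∧ ∀ p : Ideal (𝓞 K), p.IsPrime → p ≠ ⊥ →
    Set.ncard (p.primesOver (𝓞 M)) = Module.finrank K M →
    ¬ ∃! P : Ideal (𝓞 M), P ∈ p.primesOver (𝓞 M) ∧ P ∣ 𝔡}

/-- totally split primes are numerous -/
def SplitSum : Prop :=
  ∀ (K M : Type) [Field K] [NumberField K] [Field M] [NumberField M] [Algebra K M]
    [IsGalois K M],
    ¬ Summable (fun p : {p : Ideal (𝓞 K) // p.IsPrime ∧ p ≠ ⊥ ∧
      Set.ncard (p.primesOver (𝓞 M)) = Module.finrank K M} => (1 : ℝ) / Ideal.absNorm p.1)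

/-- the sieve -/
def Sieve : Prop :=
  ∀ (K M : Type) [Field K] [NumberField K] [Field M] [NumberField M] [Algebra K M]
    [IsGalois K M],
    Tendsto (fun Z : ℝ =>
      (Set.ncard {𝔡 : Ideal (𝓞 M) | 𝔡 ∈ badId K M ∧ (Ideal.absNorm 𝔡 : ℝ) ≤ Z} : ℝ) / Z)
      atTop (𝓝 0)

/-- Kummer theory: if the normal closure of `M(√α)` over `K` is smaller than expected, a product of
conjugates of `α` is a square -/
def NotFull : Prop :=
  ∀ (K Ω : Type) [Field K] [NumberField K] [Field Ω] [Algebra K Ω] [IsAlgClosure K Ω]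
    (M : IntermediateField K Ω) [FiniteDimensional K M] [IsGalois K M]
    (L : IntermediateField K Ω), M ≤ L → ∀ (α : M) (s : Ω), α ≠ 0 →
    s ^ 2 = (α : Ω) → s ∉ M → L = M ⊔ IntermediateField.adjoin K {s} →
    Module.finrank K (IntermediateField.normalClosure K L Ω) ≠
      2 ^ Module.finrank K M * Module.finrank K M →
    ∃ S : Finset (M ≃ₐ[K] M), S.Nonempty ∧ IsSquare (∏ σ ∈ S, σ α)

/-- the squarefree part of an `α` with a product of conjugates a square is bad -/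
def SqBad : Prop :=
  ∀ (K M : Type) [Field K] [NumberField K] [Field M] [NumberField M] [Algebra K M]
    [IsGalois K M] (α : 𝓞 M) (𝔡 𝔠 : Ideal (𝓞 M)) (S : Finset (M ≃ₐ[K] M)), α ≠ 0 →
    Squarefree 𝔡 → Ideal.span {α} = 𝔡 * 𝔠 ^ 2 → S.Nonempty →
    IsSquare (∏ σ ∈ S, σ (α : M)) → 𝔡 ∈ badId K M

/-- the wreath product `C₂ ≀ H` acting on `H × Bool` -/
def Wr2 (H : Type) [Group H] : Set (Equiv.Perm (H × Bool)) :=
  {π | ∃ h : H, ∀ x : H × Bool, (π x).1 = h * x.1}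

/-- `L/K` has Galois group `C₂ ≀ H` (as a permutation group on the embeddings) -/
def IsWr (K Ω : Type) [Field K] [Field Ω] [Algebra K Ω] (H : Type) [Group H]
    (L : IntermediateField K Ω) : Prop :=
  ∃ e : (L →ₐ[K] Ω) ≃ H × Bool, ∀ π : Equiv.Perm (H × Bool), π ∈ Wr2 H ↔
    ∃ σ : Ω ≃ₐ[K] Ω, ∀ φ : L →ₐ[K] Ω, e (σ.toAlgHom.comp φ) = π (e φ)

/-- Galois extensions with group `H` in `Ω` -/
def Gal (K Ω : Type) [Field K] [Field Ω] [Algebra K Ω] (H : Type) [Group H] :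
    Set (IntermediateField K Ω) :=
  {M | FiniteDimensional K M ∧ IsGalois K M ∧ Nonempty ((M ≃ₐ[K] M) ≃* H)}

/-- the subfields `M` of `L` which show that `L/K` has group `C₂ ≀ H` -/
def Mid (K Ω : Type) [Field K] [Field Ω] [Algebra K Ω] (H : Type) [Group H]
    (L M : IntermediateField K Ω) : Prop :=
  M ∈ Gal K Ω H ∧ M ≤ L ∧ FiniteDimensional K L ∧ Module.finrank K L = 2 * Module.finrank K M ∧
    Module.finrank K (IntermediateField.normalClosure K L Ω) =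
      2 ^ Module.finrank K M * Module.finrank K M

/-- description of the extensions with group `C₂ ≀ H` -/
def WrIff : Prop :=
  ∀ (K Ω : Type) [Field K] [NumberField K] [Field Ω] [Algebra K Ω] [IsAlgClosure K Ω]
    (H : Type) [Group H] [Finite H] (L : IntermediateField K Ω),
    (Module.finrank K L = 2 * Nat.card H ∧ IsWr K Ω H L) ↔ ∃ M, Mid K Ω H L M

/-- uniqueness of `M` -/
def MidUnique : Prop :=
  ∀ (K Ω : Type) [Field K] [NumberField K] [Field Ω] [Algebra K Ω] [IsAlgClosure K Ω]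
    (H : Type) [Group H] [Finite H] (L M M' : IntermediateField K Ω), 2 ≤ Nat.card H →
    Mid K Ω H L M → Mid K Ω H L M' → M = M'

/-- crude polynomial form of the theorem of Hermite -/
def Hermite : Prop :=
  ∀ (A : Type) [Field A] [CharZero A] (D : ℕ), ∃ C : ℝ, ∀ Z : ℝ, 1 ≤ Z →
    {F : IntermediateField ℚ A | Module.finrank ℚ F = D ∧ ∃ h : NumberField F,
      ((|@discr F _ h| : ℤ) : ℝ) ≤ Z}.Finite ∧
    (Set.ncard {F : IntermediateField ℚ A | Module.finrank ℚ F = D ∧ ∃ h : NumberField F,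
      ((|@discr F _ h| : ℤ) : ℝ) ≤ Z} : ℝ) ≤ C * Z ^ (D ^ 2)

open Classical in
/-- the absolute value of the discriminant of a subfield (`1` if it is not a number field) -/
noncomputable def dsc {K Ω : Type} [Field K] [Field Ω] [Algebra K Ω]
    (M : IntermediateField K Ω) : ℝ :=
  if h : NumberField M then ((|@discr M _ h| : ℤ) : ℝ) else 1

/-- the quadratic extensions `L` of `M` with small normal closure over `K` are few -/
def BadSmall : Prop :=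
  ∀ (K Ω : Type) [Field K] [NumberField K] [Field Ω] [Algebra K Ω] [IsAlgClosure K Ω]
    (M : IntermediateField K Ω) [FiniteDimensional K M] [IsGalois K M],
    Tendsto (fun Y : ℝ => (Set.ncard {L : IntermediateField K Ω | M ≤ L ∧
      Module.finrank K L = 2 * Module.finrank K M ∧
      Module.finrank K (IntermediateField.normalClosure K L Ω) ≠
        2 ^ Module.finrank K M * Module.finrank K M ∧ dsc L ≤ Y * dsc M ^ 2} : ℝ) / Y)
      atTop (𝓝 0)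

/-- few Galois extensions with group `H` -/
def FewGal : Prop :=
  ∀ (K Ω : Type) [Field K] [NumberField K] [Field Ω] [Algebra K Ω] [IsAlgClosure K Ω]
    (H : Type) [Group H] [Finite H] (U : Subgroup H), U.normalCore = ⊥ →
    4 * U.index * ((U.index * Module.finrank ℚ K) ^ 2 + 2) ≤ Nat.card H →
    Summable (fun M : Gal K Ω H => (dsc M.1) ^ (-(1 / 4) : ℝ))

end Pool.Agent.TH444.ML
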