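import Pool.Agent.TH444.ML.Defs

/-!
# Statements with constants independent of `[K : ℚ]`, counts up to isomorphism
-/

set_option autoImplicit false

open NumberField Filter Topology

namespace Pool.Agent.TH444.ML

/-- polynomial form of the theorem of Hermite, relative to `K`: the exponent does not depend on the
degree of `K` -/
def HermiteRel : Prop :=
  ∀ (K Ω : Type) [Field K] [NumberField K] [Field Ω] [Algebra K Ω] [IsAlgClosure K Ω] (u : ℕ),
    ∃ C : ℝ, ∀ Z : ℝ, 1 ≤ Z →
    {F : IntermediateField K Ω | FiniteDimensional K F ∧ Module.finrank K F = u ∧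
      dsc F ≤ Z}.Finite ∧
    (Set.ncard {F : IntermediateField K Ω | FiniteDimensional K F ∧ Module.finrank K F = u ∧
      dsc F ≤ Z} : ℝ) ≤ C * Z ^ (2 * u)

/-- few Galois extensions with group `H` (condition independent of `K`) -/
def FewGalRel : Prop :=
  ∀ (K Ω : Type) [Field K] [NumberField K] [Field Ω] [Algebra K Ω] [IsAlgClosure K Ω]
    (H : Type) [Group H] [Finite H] (U : Subgroup H), U.normalCore = ⊥ →
    8 * U.index * (U.index + 1) ≤ Nat.card H →
    Summable (fun M : Gal K Ω H => (dsc M.1) ^ (-(1 / 4) : ℝ))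

/-- the fields isomorphic to an extension with group `C₂ ≀ H` : there are `|H|` of them in `Ω` -/
def WrConj : Prop :=
  ∀ (K Ω : Type) [Field K] [NumberField K] [Field Ω] [Algebra K Ω] [IsAlgClosure K Ω]
    (H : Type) [Group H] [Finite H] (L : IntermediateField K Ω),
    Module.finrank K L = 2 * Nat.card H → IsWr K Ω H L →
    Set.ncard {L' : IntermediateField K Ω | Nonempty (L ≃ₐ[K] L')} = Nat.card H

end Pool.Agent.TH444.ML
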