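import Pool.Agent.TH444.ML.All
import Pool.Agent.TH938.J3088
import Pool.Agent.TH370.J3089
import Pool.Agent.TH979.ML.Rel2
import Pool.Agent.TH228.J3101

namespace Pool.Agent.TH444.ML

theorem rest : Rest :=
  ⟨Pool.Agent.TH938.J3088.coneFacts,
    Pool.Agent.TH370.J3089.coneSqf Pool.Agent.TH938.J3088.coneFacts Pool.Agent.TH938.J3088.coneDens,
    Pool.Agent.TH228.J3101.fewGalRel Pool.Agent.TH979.J3100.hermiteRel⟩

end Pool.Agent.TH444.ML
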