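import Pool.Agent.TH444.ML.Fin

/-!
# Elements of minimal index
-/

set_option autoImplicit false
set_option linter.unusedSectionVars false

namespace Pool.Agent.TH444.ML

/-- the index of a permutation: degree minus number of orbits -/
def ind {n : ℕ} (g : Equiv.Perm (Fin n)) : ℕ := g.cycleType.sum - Multiset.card g.cycleType

theorem two_card_le {n : ℕ} (g : Equiv.Perm (Fin n)) :
    2 * Multiset.card g.cycleType ≤ g.cycleType.sum := by
  have h : ∀ m : Multiset ℕ, (∀ x ∈ m, 2 ≤ x) → 2 * Multiset.card m ≤ m.sum := by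
    intro m
    induction m using Multiset.induction_on with
    | empty => intro _; simp
    | cons a m ih =>
      intro h
      have h1 := h a (Multiset.mem_cons_self a m)
      have h2 := ih (fun x hx => h x (Multiset.mem_cons_of_mem hx))
      simp only [Multiset.card_cons, Multiset.sum_cons]
      omega
  exact h _ (fun x hx => Equiv.Perm.two_le_of_mem_cycleType hx)

theorem one_le_ind {n : ℕ} (g : Equiv.Perm (Fin n)) (hg : g ≠ 1) : 1 ≤ ind g := by
  have h1 := two_card_le g
  have h2 : 0 < Multiset.card g.cycleType := by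
    rw [Multiset.card_pos]
    intro h
    exact hg (Equiv.Perm.cycleType_eq_zero.1 h)
  unfold ind
  omega

theorem ind_swap {n : ℕ} {a b : Fin n} (hab : a ≠ b) : ind (Equiv.swap a b) = 1 := by
  unfold ind
  have h : (Equiv.swap a b).IsCycle := Equiv.Perm.isCycle_swap hab
  rw [h.cycleType, Equiv.Perm.card_support_swap hab]
  simp

theorem swap_of_ind {n : ℕ} (g : Equiv.Perm (Fin n)) (hg : ind g = 1) :
    ∃ a b : Fin n, a ≠ b ∧ g = Equiv.swap a b := by
  have h1 := two_card_le g
  have h0 : 0 < Multiset.card g.cycleType := by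
    rw [Multiset.card_pos]
    intro h
    unfold ind at hg
    rw [h] at hg
    simp at hg
  unfold ind at hg
  have h2 : g.cycleType.sum = 2 := by
    omega
  rw [Equiv.Perm.sum_cycleType] at h2
  exact Equiv.Perm.card_support_eq_two.1 h2

section

variable {H : Type} [Group H] [Finite H] {n : ℕ} {G : Subgroup (Equiv.Perm (Fin n))}

theorem exists_ind_one (hG : IsC2Wr H G) : ∃ g ∈ G, g ≠ 1 ∧ ind g = 1 := by
  obtain ⟨f, hf⟩ := hG
  have hab : f.symm (1, false) ≠ f.symm (1, true) := by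
    intro h
    have := f.symm.injective h
    simp at this
  refine ⟨Equiv.swap (f.symm (1, false)) (f.symm (1, true)), ?_, ?_, ind_swap hab⟩
  · rw [hf]
    refine ⟨1, fun i => ?_⟩
    rw [one_mul]
    by_cases h1 : i = f.symm (1, false)
    · subst h1; rw [Equiv.swap_apply_left]; simp
    · by_cases h2 : i = f.symm (1, true)
      · subst h2; rw [Equiv.swap_apply_right]; simp
      · rw [Equiv.swap_apply_of_ne_of_ne h1 h2]
  · intro h
    exact hab (Equiv.swap_eq_one_iff.1 h)

theorem least_ind (hG : IsC2Wr H G) : IsLeast {k : ℕ | ∃ g ∈ G, g ≠ 1 ∧ k = ind g} 1 := by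
  constructor
  · obtain ⟨g, h1, h2, h3⟩ := exists_ind_one hG
    exact ⟨g, h1, h2, h3.symm⟩
  · rintro k ⟨g, -, h2, rfl⟩
    exact one_le_ind g h2

theorem block_of_swap (h2 : 2 ≤ Nat.card H) {f : Fin n ≃ H × Bool}
    (hf : ∀ π : Equiv.Perm (Fin n), π ∈ G ↔ ∃ h : H, ∀ i, (f (π i)).1 = h * (f i).1)
    {a b : Fin n} (hab : a ≠ b) (hg : Equiv.swap a b ∈ G) : (f a).1 = (f b).1 := by
  obtain ⟨h, hh⟩ := (hf _).1 hg
  -- some point is fixed
  obtain ⟨x, hx⟩ : ∃ x : H, x ≠ (f a).1 := by
    by_contra hcon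
    push Not at hcon
    have : Subsingleton H := ⟨fun x y => (hcon x).trans (hcon y).symm⟩
    have := Finite.card_le_one_iff_subsingleton.2 this
    omega
  have hfix : ∃ i : Fin n, i ≠ a ∧ i ≠ b := by
    by_cases hx1 : f.symm (x, false) = b
    · refine ⟨f.symm (x, true), ?_, ?_⟩
      · rintro rfl; simp at hx
      · rw [← hx1]
        intro h
        have := f.symm.injective h
        simp at this
    · refine ⟨f.symm (x, false), ?_, hx1⟩
      rintro rfl; simp at hx
  obtain ⟨i, h3, h4⟩ := hfix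
  have h5 := hh i
  rw [Equiv.swap_apply_of_ne_of_ne h3 h4] at h5
  have h6 : h = 1 := by
    have : 1 * (f i).1 = h * (f i).1 := by rw [one_mul]; exact h5
    exact (mul_right_cancel this).symm
  have h7 := hh b
  rw [Equiv.swap_apply_right, h6, one_mul] at h7
  exact h7

theorem conj_of_ind_one (h2 : 2 ≤ Nat.card H) (hG : IsC2Wr H G) (g g' : G) (hg : ind g.1 = 1)
    (hg' : ind g'.1 = 1) : IsConj g g' := by
  obtain ⟨f, hf⟩ := hG
  obtain ⟨a, b, hab, h1⟩ := swap_of_ind g.1 hg
  obtain ⟨a', b', hab', h1'⟩ := swap_of_ind g'.1 hg'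
  have hb := block_of_swap h2 hf hab (h1 ▸ g.2)
  have hb' := block_of_swap h2 hf hab' (h1' ▸ g'.2)
  -- the translation
  let t : Equiv.Perm (H × Bool) :=
    (Equiv.mulLeft ((f a').1 * (f a).1⁻¹)).prodCongr (Equiv.refl Bool)
  let T : Equiv.Perm (Fin n) := f.trans (t.trans f.symm)
  have hT : T ∈ G := by
    rw [hf]
    exact ⟨(f a').1 * (f a).1⁻¹, fun i => by simp [T, t]⟩
  have hTf : ∀ i, f (T i) = ((f a').1 * (f a).1⁻¹ * (f i).1, (f i).2) := by
    intro i; simp [T, t, Prod.map, mul_assoc]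
  have hTa : (f (T a)).1 = (f a').1 := by rw [hTf]; simp
  have hTb : (f (T b)).1 = (f a').1 := by
    rw [hTf]
    show (f a').1 * (f a).1⁻¹ * (f b).1 = (f a').1
    rw [← hb]; group
  have hTab : T a ≠ T b := fun h => hab (T.injective h)
  rw [isConj_iff]
  refine ⟨⟨T, hT⟩, ?_⟩
  apply Subtype.ext
  show T * g.1 * T⁻¹ = g'.1
  rw [h1, h1', ← Equiv.swap_apply_apply]
  -- `{T a, T b} = {a', b'}`
  have key : ∀ x y z w : H × Bool, x.1 = z.1 → y.1 = z.1 → w.1 = z.1 → x ≠ y → z ≠ w →
      (x = z ∧ y = w) ∨ (x = w ∧ y = z) := by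
    rintro ⟨x, bx⟩ ⟨y, by'⟩ ⟨z, bz⟩ ⟨w, bw⟩ h1 h2 h3 h4 h5
    simp only at h1 h2 h3
    subst h1 h2 h3
    simp only [ne_eq, Prod.mk.injEq, true_and] at h4 h5 ⊢
    cases bx <;> cases by' <;> cases bz <;> cases bw <;> simp_all
  rcases key (f (T a)) (f (T b)) (f a') (f b') hTa hTb hb'.symm
    (fun h => hTab (f.injective h)) (fun h => hab' (f.injective h)) with h | h
  · rw [f.injective h.1, f.injective h.2]
  · rw [f.injective h.1, f.injective h.2, Equiv.swap_comm]

end

end Pool.Agent.TH444.ML
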