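import Pool.Agent.TH444.ML.Real

/-!
# The wreath products `A ≀ S_n`
-/

set_option autoImplicit false

open Pool.Agent.TH444.TW (Cls IsTwistedPower twist)
open Pool.Agent.H391R2 (Wr)

namespace Pool.Agent.TH444.ML

section

variable {A : Type} [Group A] {n : ℕ}

/-- the imprimitive action -/
def wrAct (A : Type) [Group A] (n : ℕ) : MulAction (Wr A n) (A × Fin n) where
  smul w x := (w.left (w.right x.2) * x.1, w.right x.2)
  one_smul x := by
    show ((1 : Wr A n).left ((1 : Wr A n).right x.2) * x.1, (1 : Wr A n).right x.2) = x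
    simp
  mul_smul v w x := by
    show ((v * w).left ((v * w).right x.2) * x.1, (v * w).right x.2) =
      (v.left (v.right (w.right x.2)) * (w.left (w.right x.2) * x.1), v.right (w.right x.2))
    rw [Pool.Agent.H391R2.wr_mul_left, Pool.Agent.H391R2.wr_mul_right]
    simp [Equiv.Perm.mul_apply, mul_assoc]

theorem wr_smul_def (w : Wr A n) (x : A × Fin n) :
    (wrAct A n).toSMul.smul w x = (w.left (w.right x.2) * x.1, w.right x.2) := rfl

theorem wr_core (A : Type) [Group A] [Finite A] (n : ℕ) (hn : 0 < n) :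
    ∃ U : Subgroup (Wr A n), U.normalCore = ⊥ ∧ U.index = Nat.card A * n := by
  classical
  letI := wrAct A n
  let i₀ : Fin n := ⟨0, hn⟩
  have hdef : ∀ (w : Wr A n) (x : A × Fin n),
      w • x = (w.left (w.right x.2) * x.1, w.right x.2) := fun _ _ => rfl
  have htrans : ∀ x : A × Fin n, ∃ w : Wr A n, w • ((1 : A), i₀) = x := by
    rintro ⟨a, i⟩
    refine ⟨⟨fun _ => a, Equiv.swap i₀ i⟩, ?_⟩
    rw [hdef]
    simp
  refine ⟨MulAction.stabilizer (Wr A n) ((1 : A), i₀), ?_, ?_⟩
  · rw [eq_bot_iff]
    intro x hx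
    have hfix : ∀ y : A × Fin n, x • y = y := by
      intro y
      obtain ⟨w, rfl⟩ := htrans y
      have h1 : w⁻¹ * x * w ∈ MulAction.stabilizer (Wr A n) ((1 : A), i₀) := by
        have := hx w⁻¹
        simpa using this
      rw [MulAction.mem_stabilizer_iff, mul_smul, mul_smul, inv_smul_eq_iff] at h1
      exact h1
    rw [Subgroup.mem_bot]
    have hr : x.right = 1 := by
      ext i
      have := congrArg (fun z : A × Fin n => (z.2 : ℕ)) (hfix (1, i))
      simpa [hdef] using this
    apply SemidirectProduct.ext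
    · funext i
      have := congrArg Prod.fst (hfix (1, i))
      rw [hdef] at this
      simp only [hr, Equiv.Perm.one_apply, mul_one] at this
      exact this
    · exact hr
  · rw [MulAction.index_stabilizer]
    have : MulAction.orbit (Wr A n) ((1 : A), i₀) = Set.univ := by
      rw [Set.eq_univ_iff_forall]
      intro x
      obtain ⟨w, hw⟩ := htrans x
      exact ⟨w, hw⟩
    rw [this, Set.ncard_univ, Nat.card_prod, Nat.card_fin]

theorem wr_card (A : Type) [Group A] [Finite A] (n : ℕ) :
    Nat.card (Wr A n) = Nat.card A ^ n * n.factorial := by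
  rw [SemidirectProduct.card, Nat.card_fun, Nat.card_perm, Nat.card_fin]

/-- the trivial quotient of a wreath product is in the class -/
theorem wr_cls (K : Type) [Field K] (A : Type) [Group A] [Finite A] (n : ℕ)
    (hn : ((3 * Nat.card A + 2).factorial) ^ 3 ≤ n) {G₀ : Type} [Group G₀] [Subsingleton G₀] :
    Cls K (1 : Wr A n →* G₀) := by
  refine Cls.wreath _ A n hn ⟨1, 1, Pi.evalMonoidHom _ 0, 1, ?_, ?_, ?_, ?_⟩
  · intro x y hxy
    funext i
    rw [Subsingleton.elim i 0]
    exact hxy
  · rw [MonoidHom.ker_one]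
    rw [MonoidHom.range_eq_top]
    intro x
    exact ⟨fun _ => x, rfl⟩
  · intro w
    exact Subsingleton.elim _ _
  · intro w x
    simp only [MonoidHom.one_apply, one_mul, mul_one]
    rfl

end

end Pool.Agent.TH444.ML
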