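import Pool.Agent.TH444.ML.Quo
import Pool.Agent.TH444.ML.Perm
import Pool.Agent.TH444.ML.WrG
import Pool.Agent.TH914.J3087
import Pool.Agent.TH626.J3090
import Pool.Agent.TH89.J3091
import Pool.Agent.TH55.J3092
import Pool.Agent.TH293.J3093
import Pool.Agent.TH858.J3094
import Pool.Agent.TH857.J3095
import Pool.Agent.TH713.J3096
import Pool.Agent.TH111.J3097
import Pool.Agent.TH9.J3098
import Pool.Agent.TH521.J3102
import Pool.Agent.TH928.J3106
import Pool.Agent.TH263.J3086
import Pool.Agent.TH365.J3099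
import Pool.Agent.TH979.ML.Rel2

/-!
# The asymptotic formula for `C₂ ≀ H`
-/

set_option autoImplicit false
set_option linter.unusedSectionVars false

open NumberField Filter Topology

namespace Pool.Agent.TH444.ML

/-- the three remaining inputs -/
structure Rest : Prop where
  coneFacts : ConeFacts
  coneSqf : ConeSqf
  fewGal : FewGalRel

theorem quadLim (r : Rest) : QuadLim :=
  Pool.Agent.TH626.J3090.quadLim Pool.Agent.TH263.J3086.discQuad Pool.Agent.TH914.J3087.kumP
    r.coneFacts r.coneSqf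

theorem quadUnif : QuadUnif :=
  Pool.Agent.TH293.J3093.quadUnif Pool.Agent.TH263.J3086.discQuad Pool.Agent.TH914.J3087.kumP
    Pool.Agent.TH89.J3091.idealUnif Pool.Agent.TH55.J3092.princUnif

theorem quadPos : QuadPos :=
  Pool.Agent.TH858.J3094.quadPos Pool.Agent.TH263.J3086.discQuad Pool.Agent.TH914.J3087.kumP
    quadUnif

theorem badSmall : BadSmall :=
  Pool.Agent.TH521.J3102.badSmall Pool.Agent.TH263.J3086.discQuad Pool.Agent.TH914.J3087.kumP
    Pool.Agent.TH111.J3097.notFull Pool.Agent.TH9.J3098.sqBad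
    (Pool.Agent.TH713.J3096.sieve Pool.Agent.TH857.J3095.splitSum)

section

variable (r : Rest) (K : Type) [Field K] [NumberField K] (H : Type) [Group H] [Finite H]
include r

theorem asymp (h2 : 2 ≤ Nat.card H) (U : Subgroup H) (hU : U.normalCore = ⊥)
    (hc : 8 * U.index * (U.index + 1) ≤ Nat.card H)
    (hne : (Gal K (AlgebraicClosure K) H).Nonempty) {n : ℕ} (G : Subgroup (Equiv.Perm (Fin n)))
    (hG : IsC2Wr H G) :
    (∀ X : ℝ, 0 < X → (Cnt K G X).Finite) ∧ ∃ c : ℝ, 0 < c ∧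
      Tendsto (fun X : ℝ => (Set.ncard (Cnt K G X) : ℝ) / X) atTop (𝓝 c) := by
  have hd : 0 < ((|discr K| : ℤ) : ℝ) ^ n := by
    have : (0 : ℤ) < |discr K| := abs_pos.2 (discr_ne_zero K)
    have : (0 : ℝ) < ((|discr K| : ℤ) : ℝ) := by exact_mod_cast this
    positivity
  have h := main_asymp (K := K) (Ω := AlgebraicClosure K) (H := H) (quadLim r) quadPos quadUnif
    badSmall Pool.Agent.TH365.J3099.wrIff Pool.Agent.TH365.J3099.midUnique h2
    (r.fewGal K (AlgebraicClosure K) H U hU hc) hne _ hd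
  simp only [cnt_eq K hG]
  exact h

/-- up to isomorphism -/
theorem asymp_iso (h2 : 2 ≤ Nat.card H) (U : Subgroup H) (hU : U.normalCore = ⊥)
    (hc : 8 * U.index * (U.index + 1) ≤ Nat.card H)
    (hne : (Gal K (AlgebraicClosure K) H).Nonempty) {n : ℕ} (G : Subgroup (Equiv.Perm (Fin n)))
    (hG : IsC2Wr H G) :
    ∃ c : ℝ, 0 < c ∧ Tendsto (fun X : ℝ =>
      (Nat.card (Quot (fun L L' : Cnt K G X => Nonempty (L.1 ≃ₐ[K] L'.1))) : ℝ) / X)
        atTop (𝓝 c) := by
  obtain ⟨hfin, c, hc0, hlim⟩ := asymp r K H h2 U hU hc hne G hG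
  have hpos : (0 : ℝ) < Nat.card H := by exact_mod_cast (by omega : 0 < Nat.card H)
  refine ⟨c / Nat.card H, by positivity, ?_⟩
  have h := hlim.div_const (Nat.card H : ℝ)
  refine h.congr' ?_
  filter_upwards [eventually_gt_atTop (0 : ℝ)] with X hX
  have hX' := hfin X hX
  rw [cnt_eq K hG] at hX' ⊢
  have hq := quot_TT (K := K) (Ω := AlgebraicClosure K) (H := H)
    Pool.Agent.TH928.J3106.wrConj _ hX'
  rw [← hq]
  push_cast
  field_simp

end

section special

theorem wr_bound {a n : ℕ} (ha : 1 ≤ a) (hn : 10 ≤ n) :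
    8 * (a * n) * (a * n + 1) ≤ a ^ n * n.factorial := by
  have h1 : 8 * (a * n) * (a * n + 1) ≤ 16 * (a ^ 2 * n ^ 2) := by
    have : 1 ≤ a * n := Nat.one_le_iff_ne_zero.2 (by positivity)
    nlinarith
  have h2 : a ^ 2 ≤ a ^ n := Nat.pow_le_pow_right ha (by omega)
  have h3 : ∀ m : ℕ, 16 * (m + 10) ^ 2 ≤ (m + 10).factorial := by
    intro m
    induction m with
    | zero => decide
    | succ m ih =>
      have e : (m + 1 + 10).factorial = (m + 11) * (m + 10).factorial := by
        rw [show m + 1 + 10 = (m + 10) + 1 by ring, Nat.factorial_succ]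
      rw [e]
      have : 16 * (m + 1 + 10) ^ 2 ≤ (m + 11) * (16 * (m + 10) ^ 2) := by nlinarith
      exact this.trans (Nat.mul_le_mul_left _ ih)
  have h4 : 16 * n ^ 2 ≤ n.factorial := by
    obtain ⟨m, rfl⟩ := Nat.exists_eq_add_of_le hn
    rw [show 10 + m = m + 10 by ring]
    exact h3 m
  calc 8 * (a * n) * (a * n + 1) ≤ 16 * (a ^ 2 * n ^ 2) := h1
    _ = a ^ 2 * (16 * n ^ 2) := by ring
    _ ≤ a ^ n * n.factorial := Nat.mul_le_mul h2 h4

theorem fact_bound (a : ℕ) : 10 ≤ ((3 * a + 2).factorial) ^ 3 ∨ a = 0 := by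
  rcases Nat.eq_zero_or_pos a with h | h
  · exact Or.inr h
  · left
    have h1 : (5 : ℕ).factorial ≤ (3 * a + 2).factorial := Nat.factorial_le (by omega)
    have h2 : (5 : ℕ).factorial = 120 := rfl
    calc 10 ≤ 120 ^ 1 := by norm_num
      _ ≤ 120 ^ 3 := Nat.pow_le_pow_right (by norm_num) (by norm_num)
      _ ≤ _ := Nat.pow_le_pow_left (by omega) 3

open Pool.Agent.H391R2 (Wr)

/-- the data for `A ≀ S_m` -/
theorem wr_data (K : Type) [Field K] [NumberField K] (A : Type) [Group A] [Finite A] (m : ℕ)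
    (hm : ((3 * Nat.card A + 2).factorial) ^ 3 ≤ m) :
    2 ≤ Nat.card (Wr A m) ∧ (∃ U : Subgroup (Wr A m), U.normalCore = ⊥ ∧
      8 * U.index * (U.index + 1) ≤ Nat.card (Wr A m)) ∧
      (Gal K (AlgebraicClosure K) (Wr A m)).Nonempty := by
  have hA : 1 ≤ Nat.card A := Nat.card_pos
  have hm10 : 10 ≤ m := by
    rcases fact_bound (Nat.card A) with h | h
    · exact h.trans hm
    · omega
  have hfact : 2 ≤ m.factorial := by
    have := Nat.self_le_factorial m
    omega
  refine ⟨?_, ?_, ?_⟩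
  · rw [wr_card]
    calc 2 ≤ 1 * m.factorial := by omega
      _ ≤ _ := Nat.mul_le_mul_right _ (Nat.one_le_pow _ _ hA)
  · obtain ⟨U, h1, h2⟩ := wr_core A m (by omega)
    refine ⟨U, h1, ?_⟩
    rw [h2, wr_card]
    exact wr_bound hA hm10
  · have : Subsingleton (K ≃ₐ[K] K) := ⟨fun σ τ => by
      ext x
      exact (σ.commutes x).trans (τ.commutes x).symm⟩
    exact gal_nonempty K (AlgebraicClosure K) K (Wr A m) 1 (wr_cls K A m hm)

end special

end Pool.Agent.TH444.ML
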