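import Pool.Agent.TH444.ML.Main

/-!
# Permutation groups on `Fin n`, counting up to isomorphism
-/

set_option autoImplicit false
set_option linter.unusedSectionVars false

open NumberField Filter Topology

namespace Pool.Agent.TH444.ML

/-- `G ≤ S_n` is, up to a bijection of `{1, ..., n}` with `H × {0, 1}`, the wreath product
`C₂ ≀ H`: the group of all permutations `π` of `H × {0, 1}` for which there is `h ∈ H` such that
`π` maps `{x} × {0, 1}` to `{h x} × {0, 1}` for all `x ∈ H`. -/
def IsC2Wr (H : Type) [Group H] {n : ℕ} (G : Subgroup (Equiv.Perm (Fin n))) : Prop :=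
  ∃ f : Fin n ≃ H × Bool, ∀ π : Equiv.Perm (Fin n), π ∈ G ↔ ∃ h : H, ∀ i, (f (π i)).1 = h * (f i).1

/-- the Galois group of (the normal closure of) `L/K`, acting on the embeddings of `L`, is `G` -/
def HasGp (K : Type) [Field K] {n : ℕ} (G : Subgroup (Equiv.Perm (Fin n)))
    (L : IntermediateField K (AlgebraicClosure K)) : Prop :=
  ∃ e : (L →ₐ[K] AlgebraicClosure K) ≃ Fin n, ∀ π : Equiv.Perm (Fin n),
    π ∈ G ↔ ∃ σ : AlgebraicClosure K ≃ₐ[K] AlgebraicClosure K,
      ∀ φ : L →ₐ[K] AlgebraicClosure K, e (σ.toAlgHom.comp φ) = π (e φ)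

theorem c2wr_n {H : Type} [Group H] [Finite H] {n : ℕ} {G : Subgroup (Equiv.Perm (Fin n))}
    (hG : IsC2Wr H G) : n = 2 * Nat.card H := by
  obtain ⟨f, -⟩ := hG
  have := Nat.card_congr f
  rw [Nat.card_prod] at this
  simpa [mul_comm] using this

theorem hasGp_iff (K : Type) [Field K] {H : Type} [Group H] {n : ℕ}
    {G : Subgroup (Equiv.Perm (Fin n))} (hG : IsC2Wr H G)
    (L : IntermediateField K (AlgebraicClosure K)) :
    HasGp K G L ↔ IsWr K (AlgebraicClosure K) H L := by
  obtain ⟨f, hf⟩ := hG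
  constructor
  · rintro ⟨e, he⟩
    refine ⟨e.trans f, fun π => ?_⟩
    have h1 := hf (f.trans (π.trans f.symm))
    have h2 := he (f.trans (π.trans f.symm))
    have h3 : π ∈ Wr2 H ↔ f.trans (π.trans f.symm) ∈ G := by
      rw [h1]
      constructor
      · rintro ⟨h, hh⟩
        exact ⟨h, fun i => by simpa using hh (f i)⟩
      · rintro ⟨h, hh⟩
        refine ⟨h, fun x => ?_⟩
        have := hh (f.symm x)
        simpa using this
    rw [h3, h2]
    constructor
    · rintro ⟨σ, hσ⟩
      refine ⟨σ, fun φ => ?_⟩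
      have := hσ φ
      simp only [Equiv.trans_apply] at this ⊢
      rw [this]
      simp
    · rintro ⟨σ, hσ⟩
      refine ⟨σ, fun φ => ?_⟩
      have := hσ φ
      simp only [Equiv.trans_apply] at this ⊢
      rw [← this]
      simp
  · rintro ⟨e, he⟩
    refine ⟨e.trans f.symm, fun π => ?_⟩
    have h1 := hf π
    have h2 := he (f.symm.trans (π.trans f))
    have h3 : π ∈ G ↔ f.symm.trans (π.trans f) ∈ Wr2 H := by
      rw [h1]
      constructor
      · rintro ⟨h, hh⟩
        refine ⟨h, fun x => ?_⟩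
        have := hh (f.symm x)
        simpa using this
      · rintro ⟨h, hh⟩
        exact ⟨h, fun i => by simpa using hh (f i)⟩
    rw [h3, h2]
    constructor
    · rintro ⟨σ, hσ⟩
      refine ⟨σ, fun φ => ?_⟩
      have := hσ φ
      simp only [Equiv.trans_apply] at this ⊢
      rw [this]
      simp
    · rintro ⟨σ, hσ⟩
      refine ⟨σ, fun φ => ?_⟩
      have := hσ φ
      simp only [Equiv.trans_apply] at this ⊢
      rw [← this]
      simp

/-- the set of the extensions of `K` with group `G` and relative discriminant of norm `≤ X` -/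
def Cnt (K : Type) [Field K] [NumberField K] {n : ℕ} (G : Subgroup (Equiv.Perm (Fin n))) (X : ℝ) :
    Set (IntermediateField K (AlgebraicClosure K)) :=
  {L | Module.finrank K L = n ∧ HasGp K G L ∧ ∃ h : NumberField L,
    ((|@discr L _ h| : ℤ) : ℝ) ≤ X * ((|discr K| : ℤ) : ℝ) ^ n}

theorem cnt_eq (K : Type) [Field K] [NumberField K] {H : Type} [Group H] [Finite H] {n : ℕ}
    {G : Subgroup (Equiv.Perm (Fin n))} (hG : IsC2Wr H G) (X : ℝ) :
    Cnt K G X = TT K (AlgebraicClosure K) H (X * ((|discr K| : ℤ) : ℝ) ^ n) := by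
  have hn := c2wr_n hG
  ext L
  constructor
  · rintro ⟨h1, h2, h3, h4⟩
    refine ⟨by rw [h1, hn], (hasGp_iff K hG L).1 h2, ?_⟩
    rw [dsc_eq L]
    exact h4
  · rintro ⟨h1, h2, h3⟩
    have hpos : 0 < Nat.card H := Nat.card_pos
    have hfd : FiniteDimensional K L := FiniteDimensional.of_finrank_pos (by omega)
    have hnf : NumberField L := nf_of_fd L
    refine ⟨by rw [h1, hn], (hasGp_iff K hG L).2 h2, hnf, ?_⟩
    rw [dsc_eq L] at h3
    exact h3

/-- isomorphic fields have the same properties -/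
theorem tt_iso {K Ω H : Type} [Field K] [NumberField K] [Field Ω] [Algebra K Ω] [Group H]
    [Finite H] {Z : ℝ}
    {L L' : IntermediateField K Ω} (h : L ∈ TT K Ω H Z) (ε : L ≃ₐ[K] L') : L' ∈ TT K Ω H Z := by
  obtain ⟨h1, ⟨e, he⟩, h3⟩ := h
  have hpos : 0 < Nat.card H := Nat.card_pos
  have hfd : FiniteDimensional K L := FiniteDimensional.of_finrank_pos (by omega)
  have hnf : NumberField L := nf_of_fd L
  have hfd' : FiniteDimensional K L' := Module.Finite.equiv ε.toLinearEquiv
  have hnf' : NumberField L' := nf_of_fd L'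
  refine ⟨?_, ?_, ?_⟩
  · rw [← h1]; exact (ε.toLinearEquiv.finrank_eq).symm
  · let E : (L' →ₐ[K] Ω) ≃ (L →ₐ[K] Ω) :=
      { toFun := fun φ => φ.comp ε.toAlgHom
        invFun := fun φ => φ.comp ε.symm.toAlgHom
        left_inv := fun φ => by ext x; simp
        right_inv := fun φ => by ext x; simp }
    refine ⟨E.trans e, fun π => ?_⟩
    rw [he π]
    constructor
    · rintro ⟨σ, hσ⟩
      exact ⟨σ, fun φ => hσ (E φ)⟩
    · rintro ⟨σ, hσ⟩
      refine ⟨σ, fun φ => ?_⟩
      have := hσ (E.symm φ)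
      simp only [Equiv.trans_apply, Equiv.apply_symm_apply] at this
      rw [← this]
      congr 1
      ext x
      simp [E]
  · rw [dsc_eq L'] 
    rw [dsc_eq L] at h3
    rw [← NumberField.discr_eq_discr_of_ringEquiv L (ε : L ≃+* L')]
    exact h3

end Pool.Agent.TH444.ML
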