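import Pool.Agent.TH444.ML.Fin

/-!
# Counting up to isomorphism
-/

set_option autoImplicit false
set_option linter.unusedSectionVars false

open NumberField Filter Topology

namespace Pool.Agent.TH444.ML

/-- an equivalence relation on a finite type all of whose classes have `h` elements -/
theorem card_quot {T : Type} [Finite T] (r : T → T → Prop) (hr : Equivalence r) (h : ℕ)
    (hh : ∀ x, Nat.card {y // r x y} = h) : Nat.card (Quot r) * h = Nat.card T := by
  classical
  have e : T ≃ Σ q : Quot r, {y : T // Quot.mk r y = q} :=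
    { toFun := fun y => ⟨Quot.mk r y, y, rfl⟩
      invFun := fun p => p.2.1
      left_inv := fun y => rfl
      right_inv := by
        rintro ⟨q, y, rfl⟩
        rfl }
  have : Fintype (Quot r) := Fintype.ofFinite _
  have hf : ∀ q : Quot r, Nat.card {y : T // Quot.mk r y = q} = h := by
    intro q
    obtain ⟨x, rfl⟩ := Quot.exists_rep q
    rw [← hh x]
    refine Nat.card_congr (Equiv.subtypeEquivRight fun y => ?_)
    constructor
    · intro hy
      have := (Equivalence.quot_mk_eq_iff hr y x).1 hy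
      exact hr.symm this
    · intro hy
      exact Quot.sound (hr.symm hy)
  have hfin : ∀ q : Quot r, Finite {y : T // Quot.mk r y = q} := fun q => inferInstance
  rw [Nat.card_congr e, Nat.card_sigma, Finset.sum_congr rfl (fun q _ => hf q), Finset.sum_const,
    Finset.card_univ, smul_eq_mul, Nat.card_eq_fintype_card]

theorem quot_TT {K Ω H : Type} [Field K] [NumberField K] [Field Ω] [Algebra K Ω]
    [IsAlgClosure K Ω] [Group H]
    [Finite H] (hc : WrConj) (Z : ℝ) (hfin : (TT K Ω H Z).Finite) :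
    Nat.card (Quot (fun L L' : TT K Ω H Z => Nonempty (L.1 ≃ₐ[K] L'.1))) * Nat.card H =
      (TT K Ω H Z).ncard := by
  have : Finite (TT K Ω H Z) := hfin
  rw [card_quot (T := TT K Ω H Z) (fun L L' => Nonempty (L.1 ≃ₐ[K] L'.1)) ?_ (Nat.card H) ?_]
  · rfl
  · exact ⟨fun L => ⟨AlgEquiv.refl⟩, fun ⟨a⟩ => ⟨a.symm⟩, fun ⟨a⟩ ⟨b⟩ => ⟨a.trans b⟩⟩
  · intro L
    rw [← hc K Ω H L.1 L.2.1 L.2.2.1, ← Nat.card_coe_set_eq]
    refine Nat.card_congr ⟨fun y => ⟨y.1.1, y.2⟩,
      fun y => ⟨⟨y.1, tt_iso L.2 y.2.some⟩, y.2⟩, fun y => rfl, fun y => rfl⟩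

end Pool.Agent.TH444.ML
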