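import Pool.Agent.TH444.TW.Fin
import Pool.Agent.H391R2.T4.Abl
import Pool.Agent.TH444.ML.Defs

/-!
# Groups in the class are Galois groups over number fields
-/

set_option autoImplicit false

open Pool.Agent.TH444.TW (Cls)

namespace Pool.Agent.TH444.ML

/-- the constant tower over `p` -/
def TwW (G₀ H : Type) : ℕ → Type
  | 0 => G₀
  | _ + 1 => H

instance instTwW (G₀ H : Type) [Group G₀] [Group H] : ∀ i, Group (TwW G₀ H i)
  | 0 => inferInstanceAs (Group G₀)
  | _ + 1 => inferInstanceAs (Group H)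

/-- the maps of the constant tower -/
def TwP {G₀ H : Type} [Group G₀] [Group H] (p : H →* G₀) :
    ∀ i, TwW G₀ H (i + 1) →* TwW G₀ H i
  | 0 => p
  | _ + 1 => MonoidHom.id H

theorem cls_id (K : Type) [Field K] (H : Type) [Group H] [Finite H] :
    Cls K (MonoidHom.id H) := by
  refine Cls.abelian _ (MonoidHom.id H) (fun _ => rfl) inferInstance ?_
  intro x y hx hy
  simp only [MonoidHom.id_apply] at hx hy
  rw [hx, hy]

theorem TwP_cls (K : Type) [Field K] {G₀ H : Type} [Group G₀] [Group H] [Finite H] (p : H →* G₀)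
    (hp : Cls K p) : ∀ i, Cls K (TwP p i)
  | 0 => hp
  | _ + 1 => cls_id K H

/-- the inverse limit of the constant tower -/
def limEquiv {G₀ H : Type} [Group G₀] [Group H] (p : H →* G₀) :
    Pool.Agent.TH15.IGP.Lim (TwP p) →* H where
  toFun x := x.1 1
  map_one' := rfl
  map_mul' _ _ := rfl

theorem limEquiv_inj {G₀ H : Type} [Group G₀] [Group H] (p : H →* G₀) :
    Function.Injective (limEquiv p) := by
  intro x y hxy
  have hx : ∀ i, x.1 (i + 1) = x.1 1 := by
    intro i
    induction i with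
    | zero => rfl
    | succ i ih => exact (x.2 (i + 1)).trans ih
  have hy : ∀ i, y.1 (i + 1) = y.1 1 := by
    intro i
    induction i with
    | zero => rfl
    | succ i ih => exact (y.2 (i + 1)).trans ih
  apply Subtype.ext
  funext i
  cases i with
  | zero =>
    have h1 := x.2 0
    have h2 := y.2 0
    rw [← h1, ← h2]
    exact congrArg _ hxy
  | succ i =>
    have h1 : x.1 (i + 1) = x.1 1 := hx i
    have h2 : y.1 (i + 1) = y.1 1 := hy i
    exact h1.trans (Eq.trans hxy h2.symm)

theorem limEquiv_surj {G₀ H : Type} [Group G₀] [Group H] (p : H →* G₀) :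
    Function.Surjective (limEquiv p) := by
  intro h
  refine ⟨⟨fun i => match i with
    | 0 => p h
    | _ + 1 => h, ?_⟩, rfl⟩
  intro i
  cases i with
  | zero => rfl
  | succ i => rfl

/-- a Galois extension with finite group has finite degree -/
theorem fd_of_finite_aut (K F : Type) [Field K] [Field F] [Algebra K F] [IsGalois K F]
    [Finite (F ≃ₐ[K] F)] : FiniteDimensional K F :=
  IsGaloisGroup.finiteDimensional (F ≃ₐ[K] F) K F

theorem gal_nonempty (K Ω : Type) [Field K] [NumberField K] [Field Ω] [Algebra K Ω]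
    [IsAlgClosure K Ω] (L : Type) [Field L] [Algebra K L] [FiniteDimensional K L] [IsGalois K L]
    (H : Type) [Group H] [Finite H] (p : H →* (L ≃ₐ[K] L)) (hp : Cls K p) :
    (Gal K Ω H).Nonempty := by
  obtain ⟨F, _, _, _, _, hg, γ, -, -⟩ := Pool.Agent.TH444.TW.cls_hilb
    (Pool.Agent.H391R2.T4.hilb_numberField K) (TwW (L ≃ₐ[K] L) H) (TwP p) (TwP_cls K p hp) L
    (MulEquiv.refl _)
  let e : (F ≃ₐ[K] F) ≃* H := γ.trans
    (MulEquiv.ofBijective (limEquiv p) ⟨limEquiv_inj p, limEquiv_surj p⟩)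
  have hfin : Finite (F ≃ₐ[K] F) := Finite.of_equiv H e.symm.toEquiv
  have hfd : FiniteDimensional K F := fd_of_finite_aut K F
  have hac : IsAlgClosed Ω := IsAlgClosure.isAlgClosed K
  let j : F →ₐ[K] Ω := IsAlgClosed.lift
  let ε : F ≃ₐ[K] j.fieldRange := AlgEquiv.ofInjectiveField j
  refine ⟨j.fieldRange, ?_, ?_, ?_⟩
  · exact Module.Finite.equiv ε.toLinearEquiv
  · exact IsGalois.of_algEquiv ε
  · exact ⟨(AlgEquiv.autCongr ε).symm.trans e⟩

end Pool.Agent.TH444.ML
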